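import Pool.Agent.V5helper73.SZ.StmB
import Pool.Agent.V5helper73.GC.CHAR
import Pool.Agent.Helper113.Gorin.Schottky
import Pool.Agent.H712R2.Par

/-! # Project SZ, job CHAR2: the inequality for `n` points for the odd square root transform -/

set_option autoImplicit false
open Complex Metric Set Filter Topology MeasureTheory

namespace V5helper24.SZ

open Pool.Agent.W677.Mar V5helper73.GC

/-- `1 - (-1)^k` -/
noncomputable def ek (k : ℕ) : ℝ := 1 - (-1) ^ k

theorem ek_cast (k : ℕ) : ((ek k : ℝ) : ℂ) = 1 - (-1) ^ k := by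
  unfold ek; push_cast; ring

theorem ek_sq (k : ℕ) : ek k ^ 2 = 2 * ek k := by
  unfold ek
  rcases Nat.even_or_odd k with h | h
  · rw [h.neg_one_pow]; norm_num
  · rw [h.neg_one_pow]; norm_num

theorem ek_nonneg (k : ℕ) : 0 ≤ ek k := by
  unfold ek
  rcases Nat.even_or_odd k with h | h
  · rw [h.neg_one_pow]; norm_num
  · rw [h.neg_one_pow]; norm_num

/-- the kernel of the odd transform -/
noncomputable def KK (z w : ℂ) : ℂ := BB z w - BB z (-w)

theorem mul_conj_lt {z w : ℂ} (hz : z ∈ ball (0:ℂ) 1) (hw : w ∈ ball (0:ℂ) 1) : ‖z * (starRingEnd ℂ) w‖ < 1 := by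
  rw [norm_mul, RCLike.norm_conj]
  have h2 := mem_ball_zero_iff.1 hz
  have h3 := mem_ball_zero_iff.1 hw
  nlinarith [norm_nonneg z, norm_nonneg w]

theorem neg_ball {w : ℂ} (hw : w ∈ ball (0:ℂ) 1) : -w ∈ ball (0:ℂ) 1 := by
  rw [mem_ball_zero_iff] at hw ⊢
  rwa [norm_neg]

theorem KK_hasSum {z w : ℂ} (hz : z ∈ ball (0:ℂ) 1) (hw : w ∈ ball (0:ℂ) 1) :
    HasSum (fun k : ℕ => ((ek k : ℝ) : ℂ) * ((z * (starRingEnd ℂ) w) ^ k / k)) (KK z w) := by
  have h1 := Complex.hasSum_taylorSeries_neg_log (mul_conj_lt hz hw)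
  have h2 := Complex.hasSum_taylorSeries_neg_log (mul_conj_lt hz (neg_ball hw))
  have h3 := h1.sub h2
  refine h3.congr_fun ?_ |> fun h => h
  intro k
  rw [ek_cast, map_neg, mul_neg, neg_pow (z * (starRingEnd ℂ) w) k]
  ring

theorem KK_conj {z w : ℂ} (hz : z ∈ ball (0:ℂ) 1) (hw : w ∈ ball (0:ℂ) 1) : KK w z = (starRingEnd ℂ) (KK z w) := by
  have h3 : BB w (-z) = BB (-w) z := by
    unfold BB
    rw [map_neg]
    ring_nf
  unfold KK
  rw [map_sub, ← BB_conj hz hw, ← BB_conj hz (neg_ball hw), h3]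

theorem KK_diag {z : ℂ} (hz : z ∈ ball (0:ℂ) 1) : (KK z z).re = Real.log ((1 + ‖z‖ ^ 2) / (1 - ‖z‖ ^ 2)) := by
  have h2 := mem_ball_zero_iff.1 hz
  have h3 : 0 < 1 - ‖z‖ ^ 2 := by nlinarith [norm_nonneg z]
  have h4 : 0 < 1 + ‖z‖ ^ 2 := by positivity
  unfold KK BB
  rw [map_neg, mul_neg, Complex.mul_conj, Complex.normSq_eq_norm_sq, Complex.sub_re, Complex.neg_re, Complex.neg_re,
    Complex.log_re, Complex.log_re]
  have e1 : ‖(1:ℂ) - ((‖z‖ ^ 2 : ℝ) : ℂ)‖ = 1 - ‖z‖ ^ 2 := by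
    rw [← Complex.ofReal_one, ← Complex.ofReal_sub, Complex.norm_real, Real.norm_of_nonneg h3.le]
  have e2 : ‖(1:ℂ) - -((‖z‖ ^ 2 : ℝ) : ℂ)‖ = 1 + ‖z‖ ^ 2 := by
    rw [sub_neg_eq_add, ← Complex.ofReal_one, ← Complex.ofReal_add, Complex.norm_real, Real.norm_of_nonneg h4.le]
  rw [e1, e2, Real.log_div h4.ne' h3.ne']
  ring

/-- the quadratic form at the characters -/
noncomputable def P2 {n : ℕ} (ζ : Fin n → ℂ) (t : ℝ) : ℝ :=
  ∑ i : Fin n, ∑ l : Fin n, (eM ((i : ℤ) - (l : ℤ)) t * KK (ζ i) (ζ l)).re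

theorem expand {n : ℕ} (ζ : Fin n → ℂ) (t : ℝ) (k : ℕ) :
    ‖∑ j : Fin n, eM (j : ℤ) t * ζ j ^ k‖ ^ 2 / k =
      ∑ i : Fin n, ∑ l : Fin n, (eM ((i : ℤ) - (l : ℤ)) t * ((ζ i * (starRingEnd ℂ) (ζ l)) ^ k / k)).re := by
  have e1 : ‖∑ j : Fin n, eM (j : ℤ) t * ζ j ^ k‖ ^ 2 =
      ((∑ j : Fin n, eM (j : ℤ) t * ζ j ^ k) * (starRingEnd ℂ) (∑ j : Fin n, eM (j : ℤ) t * ζ j ^ k)).re := by
    rw [Complex.mul_conj, Complex.ofReal_re, Complex.normSq_eq_norm_sq]
  rw [e1, map_sum, Finset.sum_mul_sum, Complex.re_sum, Finset.sum_div]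
  refine Finset.sum_congr rfl fun i _ => ?_
  rw [Complex.re_sum, Finset.sum_div]
  refine Finset.sum_congr rfl fun l _ => ?_
  rw [map_mul, eM_conj, map_pow, mul_pow]
  have e2 : eM (i : ℤ) t * ζ i ^ k * (eM (-(l : ℤ)) t * (starRingEnd ℂ) (ζ l) ^ k) =
      eM ((i : ℤ) - (l : ℤ)) t * (ζ i ^ k * (starRingEnd ℂ) (ζ l) ^ k) := by
    rw [sub_eq_add_neg, ← eM_mul]
    ring
  rw [e2]
  have e3 : eM ((i : ℤ) - (l : ℤ)) t * (ζ i ^ k * (starRingEnd ℂ) (ζ l) ^ k / k) =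
      (eM ((i : ℤ) - (l : ℤ)) t * (ζ i ^ k * (starRingEnd ℂ) (ζ l) ^ k)) / ((k : ℝ) : ℂ) := by
    push_cast
    ring
  rw [e3, Complex.div_ofReal_re]

theorem P2_hasSum {n : ℕ} {ζ : Fin n → ℂ} (hζ : ∀ j, ζ j ∈ ball (0:ℂ) 1) (t : ℝ) :
    HasSum (fun k : ℕ => ek k * (‖∑ j : Fin n, eM (j : ℤ) t * ζ j ^ k‖ ^ 2 / k)) (P2 ζ t) := by
  have h1 : ∀ i l : Fin n, HasSum (fun k : ℕ => (eM ((i : ℤ) - (l : ℤ)) t * (((ek k : ℝ) : ℂ) * ((ζ i * (starRingEnd ℂ) (ζ l)) ^ k / k))).re)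
      ((eM ((i : ℤ) - (l : ℤ)) t * KK (ζ i) (ζ l)).re) := by
    intro i l
    exact Complex.hasSum_re ((KK_hasSum (hζ i) (hζ l)).mul_left (eM ((i : ℤ) - (l : ℤ)) t))
  have h2 : HasSum (fun k : ℕ => ∑ i : Fin n, ∑ l : Fin n, (eM ((i : ℤ) - (l : ℤ)) t * (((ek k : ℝ) : ℂ) * ((ζ i * (starRingEnd ℂ) (ζ l)) ^ k / k))).re) (P2 ζ t) := by
    unfold P2
    exact hasSum_sum fun i _ => hasSum_sum fun l _ => h1 i l
  refine h2.congr_fun ?_ |> fun h => h
  intro k
  rw [expand, Finset.mul_sum]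
  refine Finset.sum_congr rfl fun i _ => ?_
  rw [Finset.mul_sum]
  refine Finset.sum_congr rfl fun l _ => ?_
  rw [mul_left_comm, Complex.re_ofReal_mul]

theorem P2_cont {n : ℕ} (ζ : Fin n → ℂ) : Continuous (P2 ζ) := by
  unfold P2
  refine continuous_finsetSum _ fun i _ => continuous_finsetSum _ fun l _ => ?_
  exact Complex.continuous_re.comp ((eM_cont _).mul continuous_const)

theorem P2_nonneg {n : ℕ} {ζ : Fin n → ℂ} (hζ : ∀ j, ζ j ∈ ball (0:ℂ) 1) (t : ℝ) : 0 ≤ P2 ζ t :=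
  (P2_hasSum hζ t).nonneg fun k => mul_nonneg (ek_nonneg k) (by positivity)

/-- the mean of the quadratic form -/
theorem P2_mean {n : ℕ} {ζ : Fin n → ℂ} (hζ : ∀ j, ζ j ∈ ball (0:ℂ) 1) :
    ∫ t in (0:ℝ)..(2 * Real.pi), P2 ζ t = 2 * Real.pi * ∑ j, Real.log ((1 + ‖ζ j‖ ^ 2) / (1 - ‖ζ j‖ ^ 2)) := by
  have hcT : ∀ i l : Fin n, Continuous fun t : ℝ => (eM ((i : ℤ) - (l : ℤ)) t * KK (ζ i) (ζ l)).re := fun i l =>
    Complex.continuous_re.comp ((eM_cont _).mul continuous_const)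
  unfold P2
  rw [intervalIntegral.integral_finsetSum (fun i _ => (continuous_finsetSum _ fun l _ => hcT i l).intervalIntegrable _ _), Finset.mul_sum]
  refine Finset.sum_congr rfl fun i _ => ?_
  rw [intervalIntegral.integral_finsetSum (fun l _ => (hcT i l).intervalIntegrable _ _)]
  rw [Finset.sum_eq_single i]
  · rw [int_re (eM_cont _), int_eM]
    simp only [sub_self, if_true]
    rw [Complex.re_ofReal_mul, KK_diag (hζ i)]
  · intro l _ hl
    rw [int_re (eM_cont _), int_eM, if_neg]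
    · simp
    · intro h
      apply hl
      apply Fin.ext
      have : (i : ℤ) = (l : ℤ) := by linarith
      exact_mod_cast this.symm
  · intro h
    exact absurd (Finset.mem_univ i) h

/-- the odd mean -/
theorem P2_odd {n : ℕ} {ζ : Fin n → ℂ} (hζ : ∀ j, ζ j ∈ ball (0:ℂ) 1) :
    ∫ t in (0:ℝ)..(2 * Real.pi), (Real.pi - t) * P2 ζ t = -(2 * Real.pi ^ 2 * V5helper73.SZ.y2 ζ) := by
  have hpi := Real.pi_pos
  have hcg : Continuous fun t : ℝ => ((Real.pi - t : ℝ) : ℂ) := Complex.continuous_ofReal.comp (continuous_const.sub continuous_id)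
  have hcT : ∀ i l : Fin n, Continuous fun t : ℝ => (((Real.pi - t : ℝ) : ℂ) * eM ((i : ℤ) - (l : ℤ)) t * KK (ζ i) (ζ l)).re := fun i l =>
    Complex.continuous_re.comp ((hcg.mul (eM_cont _)).mul continuous_const)
  set F : Fin n → Fin n → ℝ := fun i l => (KK (ζ i) (ζ l)).im / ((i : ℝ) - (l : ℝ)) with hF
  have e1 : ∀ t : ℝ, (Real.pi - t) * P2 ζ t = ∑ i : Fin n, ∑ l : Fin n, (((Real.pi - t : ℝ) : ℂ) * eM ((i : ℤ) - (l : ℤ)) t * KK (ζ i) (ζ l)).re := by
    intro t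
    unfold P2
    rw [Finset.mul_sum]
    refine Finset.sum_congr rfl fun i _ => ?_
    rw [Finset.mul_sum]
    refine Finset.sum_congr rfl fun l _ => ?_
    rw [mul_assoc, Complex.re_ofReal_mul]
  simp only [e1]
  rw [intervalIntegral.integral_finsetSum (fun i _ => (continuous_finsetSum _ fun l _ => hcT i l).intervalIntegrable _ _)]
  have e2 : ∀ i : Fin n, ∫ t in (0:ℝ)..(2 * Real.pi), ∑ l : Fin n, (((Real.pi - t : ℝ) : ℂ) * eM ((i : ℤ) - (l : ℤ)) t * KK (ζ i) (ζ l)).re =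
      ∑ l : Fin n, -(2 * Real.pi * F i l) := by
    intro i
    rw [intervalIntegral.integral_finsetSum (fun l _ => (hcT i l).intervalIntegrable _ _)]
    refine Finset.sum_congr rfl fun l _ => ?_
    rw [int_re (g := fun t : ℝ => ((Real.pi - t : ℝ) : ℂ) * eM ((i : ℤ) - (l : ℤ)) t) (hcg.mul (eM_cont _))]
    by_cases h : (i : ℤ) - (l : ℤ) = 0
    · have h2 : (i : ℝ) - (l : ℝ) = 0 := by exact_mod_cast h
      simp only [hF, h2, div_zero, mul_zero, neg_zero]
      rw [h]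
      simp only [eM_zero, mul_one]
      have h3 : ∫ t in (0:ℝ)..(2 * Real.pi), ((Real.pi - t : ℝ) : ℂ) = 0 := by
        rw [intervalIntegral.integral_ofReal]
        have : ∫ t in (0:ℝ)..(2 * Real.pi), (Real.pi - t) = 0 := by
          rw [intervalIntegral.integral_sub (by simp) (by simp)]
          simp
          ring
        rw [this]
        simp
      rw [h3]
      simp
    · rw [int_geM _ h]
      simp only [hF]
      have h4 : (2 * (Real.pi : ℂ) * Complex.I / (((i : ℤ) - (l : ℤ) : ℤ) : ℂ)) * KK (ζ i) (ζ l) =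
          ((2 * Real.pi / ((i : ℝ) - (l : ℝ)) : ℝ) : ℂ) * (Complex.I * KK (ζ i) (ζ l)) := by
        push_cast
        ring
      rw [h4, Complex.re_ofReal_mul, Complex.I_mul_re]
      ring
  simp only [e2]
  have hsym : ∀ i l : Fin n, F i l = F l i := by
    intro i l
    simp only [hF]
    rw [KK_conj (hζ l) (hζ i), Complex.conj_im, ← neg_sub (l : ℝ) (i : ℝ), div_neg, neg_div, neg_neg]
  have hsplit : ∀ i l : Fin n, F i l = (if l < i then F i l else 0) + (if i < l then F i l else 0) := by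
    intro i l
    rcases lt_trichotomy l i with h | h | h
    · rw [if_pos h, if_neg (not_lt.2 h.le), add_zero]
    · rw [h]; simp [hF]
    · rw [if_neg (not_lt.2 h.le), if_pos h, zero_add]
  have e3 : ∑ i : Fin n, ∑ l : Fin n, F i l = 2 * ∑ i : Fin n, ∑ l : Fin n, (if l < i then F i l else 0) := by
    have h5 : ∑ i : Fin n, ∑ l : Fin n, (if i < l then F i l else 0) = ∑ i : Fin n, ∑ l : Fin n, (if l < i then F i l else 0) := by
      rw [Finset.sum_comm]
      refine Finset.sum_congr rfl fun i _ => Finset.sum_congr rfl fun l _ => ?_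
      rw [hsym l i]
    rw [Finset.sum_congr rfl fun i _ => Finset.sum_congr rfl fun l _ => hsplit i l]
    simp only [Finset.sum_add_distrib]
    rw [h5]
    ring
  simp only [Finset.sum_neg_distrib, ← Finset.mul_sum]
  rw [e3]
  have e4 : V5helper73.SZ.y2 ζ = (2 / Real.pi) * ∑ i : Fin n, ∑ l : Fin n, (if l < i then F i l else 0) := rfl
  rw [e4]
  field_simp

theorem NN_neg {Y : ℂ → ℂ} (hev : ∀ z, Y (-z) = Y z) (ζ z : ℂ) : NN Y ζ (-z) = NN Y (-ζ) z := by
  have hd : dslope Y ζ (-z) = -dslope Y (-ζ) z := by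
    by_cases h : z = -ζ
    · rw [h, neg_neg, dslope_same, dslope_same]
      have h1 := deriv_comp_neg Y ζ
      have h2 : (fun x => Y (-x)) = Y := funext hev
      rw [h2] at h1
      rw [h1]
    · rw [dslope_of_ne _ h, dslope_of_ne _ (fun h2 => h (by rw [← h2, neg_neg])), slope_def_field, slope_def_field, hev z, hev ζ]
      rw [← div_neg]
      congr 1
      ring
  unfold NN
  rw [hd, hev z]
  ring

/-- the area theorem for the points `s_j, -s_j` with the coefficients `α_j, -α_j` -/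
theorem area2 {Y H : ℂ → ℂ} (S : Sg Y H) (hev : ∀ z, Y (-z) = Y z) (n : ℕ) (ζ : Fin n → ℂ)
    (hζ : ∀ j, ζ j ∈ ball (0:ℂ) 1) (hζ0 : ∀ j, ζ j ≠ 0)
    (A : Fin n → ℂ → ℂ) (hA : ∀ j, DifferentiableOn ℂ (A j) (ball 0 1))
    (hAe : ∀ j, ∀ z ∈ ball (0:ℂ) 1, Complex.exp (A j z) = NN Y (ζ j) z)
    (c : Fin n → ℕ → ℂ) (hc : ∀ j, ∀ z ∈ ball (0:ℂ) 1, HasSum (fun k : ℕ => c j k * z ^ k) (A j z))
    (α : Fin n → ℂ) (N : ℕ) :
    ∑ k ∈ Finset.range N, (k : ℝ) * (ek k ^ 2 * ‖∑ j, α j * c j k‖ ^ 2) ≤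
      ∑' k : ℕ, 2 * (ek k * (‖∑ j, α j * ζ j ^ k‖ ^ 2 / k)) := by
  have h := t_AREA Y H S (n + n) (Fin.append ζ (fun j => -ζ j))
    (by
      intro j
      refine Fin.addCases (fun i => ?_) (fun i => ?_) j
      · rw [Fin.append_left]; exact hζ i
      · rw [Fin.append_right]; exact neg_ball (hζ i))
    (by
      intro j
      refine Fin.addCases (fun i => ?_) (fun i => ?_) j
      · rw [Fin.append_left]; exact hζ0 i
      · rw [Fin.append_right]; exact neg_ne_zero.2 (hζ0 i))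
    (Fin.append A (fun j z => A j (-z)))
    (by
      intro j
      refine Fin.addCases (fun i => ?_) (fun i => ?_) j
      · rw [Fin.append_left]; exact hA i
      · rw [Fin.append_right]
        exact (hA i).comp differentiable_neg.differentiableOn (fun z hz => neg_ball hz))
    (by
      intro j
      refine Fin.addCases (fun i => ?_) (fun i => ?_) j
      · rw [Fin.append_left, Fin.append_left]; exact hAe i
      · rw [Fin.append_right, Fin.append_right]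
        intro z hz
        rw [hAe i (-z) (neg_ball hz), NN_neg hev])
    (Fin.append c (fun j k => (-1) ^ k * c j k))
    (by
      intro j
      refine Fin.addCases (fun i => ?_) (fun i => ?_) j
      · rw [Fin.append_left, Fin.append_left]; exact hc i
      · rw [Fin.append_right, Fin.append_right]
        intro z hz
        refine (hc i (-z) (neg_ball hz)).congr_fun ?_ |> fun h => h
        intro k
        rw [neg_pow z k]
        ring)
    (Fin.append α (fun j => -α j)) N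
  have e1 : ∀ k : ℕ, ∑ j : Fin (n + n), Fin.append α (fun j => -α j) j * Fin.append c (fun j k => (-1) ^ k * c j k) j k =
      ((ek k : ℝ) : ℂ) * ∑ j, α j * c j k := by
    intro k
    rw [Fin.sum_univ_add]
    simp only [Fin.append_left, Fin.append_right]
    rw [ek_cast, sub_mul, one_mul, Finset.mul_sum, ← Finset.sum_sub_distrib, ← Finset.sum_add_distrib]
    refine Finset.sum_congr rfl fun j _ => ?_
    ring
  have e2 : ∀ k : ℕ, ∑ j : Fin (n + n), Fin.append α (fun j => -α j) j * Fin.append ζ (fun j => -ζ j) j ^ k =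
      ((ek k : ℝ) : ℂ) * ∑ j, α j * ζ j ^ k := by
    intro k
    rw [Fin.sum_univ_add]
    simp only [Fin.append_left, Fin.append_right]
    rw [ek_cast, sub_mul, one_mul, Finset.mul_sum, ← Finset.sum_sub_distrib, ← Finset.sum_add_distrib]
    refine Finset.sum_congr rfl fun j _ => ?_
    rw [neg_pow (ζ j) k]
    ring
  simp only [e1, e2] at h
  refine le_trans (le_of_eq (Finset.sum_congr rfl fun k _ => ?_)) (h.trans (le_of_eq (tsum_congr fun k => ?_)))
  · rw [norm_mul, Complex.norm_real, Real.norm_of_nonneg (ek_nonneg k), mul_pow]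
  · rw [norm_mul, Complex.norm_real, Real.norm_of_nonneg (ek_nonneg k), mul_pow, ek_sq]
    ring

theorem char2core {Y H : ℂ → ℂ} (S : Sg Y H) (hev : ∀ z, Y (-z) = Y z) : ∃ A : ℂ → ℂ,
    (∀ s ∈ ball (0:ℂ) 1, s ≠ 0 → Complex.exp (A s) * Y s = Y s - s * deriv Y s) ∧
    ∀ (n : ℕ) (ζ : Fin n → ℂ), (∀ j, ζ j ∈ ball (0:ℂ) 1) → (∀ j, ζ j ≠ 0) → ∀ lam : ℝ, 0 < lam →
      ‖∑ j, A (ζ j)‖ ≤ (lam * ((∑ j, Real.log ((1 + ‖ζ j‖ ^ 2) / (1 - ‖ζ j‖ ^ 2))) - V5helper73.SZ.y2 ζ) +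
        ((∑ j, Real.log ((1 + ‖ζ j‖ ^ 2) / (1 - ‖ζ j‖ ^ 2))) + V5helper73.SZ.y2 ζ) / lam) / 2 := by
  have hpi := Real.pi_pos
  have h2pi : (0:ℝ) < 2 * Real.pi := by positivity
  obtain ⟨f, hf, hfe, hf0⟩ := exists_log S
  refine ⟨fun s => f (s, s) - f (s, -s), ?_, ?_⟩
  · intro s hs hs0
    show Complex.exp (f (s, s) - f (s, -s)) * Y s = _
    have h1 : NN Y s (-s) = Y s := by
      have h2 := NN_mul Y s (-s)
      rw [hev s] at h2
      have h3 : (-(2 * s)) ≠ 0 := neg_ne_zero.2 (mul_ne_zero two_ne_zero hs0)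
      apply mul_right_cancel₀ h3
      linear_combination h2
    have h4 : Y s ≠ 0 := by
      rw [← h1]
      exact NN_ne S hs (neg_ball hs)
    rw [Complex.exp_sub, hfe s hs s hs, hfe s hs (-s) (neg_ball hs), h1, div_mul_cancel₀ _ h4]
    unfold NN
    rw [dslope_same]
  intro n ζ hζ hζ0 lam hlam
  set A : Fin n → ℂ → ℂ := fun j z => f (ζ j, z) with hA
  have hAd : ∀ j, DifferentiableOn ℂ (A j) (ball 0 1) := by
    intro j
    have hAc : ContinuousOn (fun z => f (ζ j, z)) (ball 0 1) := by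
      apply hf.comp (by fun_prop)
      intro w hw
      exact ⟨hζ j, hw⟩
    exact log_diff isOpen_ball hAc (NN_diff S.G.diff (hζ j)) (fun z hz => hfe _ (hζ j) z hz)
  set c : Fin n → ℕ → ℂ := fun j k => (k.factorial : ℂ)⁻¹ * iteratedDeriv k (A j) 0 with hc
  have hcs : ∀ j, ∀ z ∈ ball (0:ℂ) 1, HasSum (fun k : ℕ => c j k * z ^ k) (A j z) := by
    intro j z hz
    have h1 := Complex.hasSum_taylorSeries_on_ball (hAd j) hz
    refine h1.congr_fun ?_ |> fun h => h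
    intro k
    simp only [hc, smul_eq_mul, sub_zero]
    ring
  -- the bound for the partial sums
  set τ : ℝ := ∑ j, Real.log ((1 + ‖ζ j‖ ^ 2) / (1 - ‖ζ j‖ ^ 2)) with hτ
  set yy2 : ℝ := V5helper73.SZ.y2 ζ with hyy2
  have hpart : ∀ N : ℕ, ‖∑ k ∈ Finset.range N, ∑ j, (((ek k : ℝ) : ℂ) * c j k) * ζ j ^ k‖ ≤ (lam * (τ - yy2) + (τ + yy2) / lam) / 2 := by
    intro N
    set U : ℝ → ℂ := fun t => ∑ k ∈ Finset.range N, (∑ j : Fin n, eM (j : ℤ) t * (((ek k : ℝ) : ℂ) * c j k)) * (∑ l : Fin n, eM (-(l : ℤ)) t * ζ l ^ k) with hU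
    have hUk : ∀ k : ℕ, Continuous fun t : ℝ => (∑ j : Fin n, eM (j : ℤ) t * (((ek k : ℝ) : ℂ) * c j k)) * (∑ l : Fin n, eM (-(l : ℤ)) t * ζ l ^ k) := fun k =>
      (continuous_finsetSum _ fun j _ => (eM_cont _).mul continuous_const).mul (continuous_finsetSum _ fun j _ => (eM_cont _).mul continuous_const)
    have hUc : Continuous U := continuous_finsetSum _ fun k _ => hUk k
    have hUi : ∫ t in (0:ℝ)..(2 * Real.pi), U t = ((2 * Real.pi : ℝ) : ℂ) * ∑ k ∈ Finset.range N, ∑ j, (((ek k : ℝ) : ℂ) * c j k) * ζ j ^ k := by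
      simp only [hU]
      rw [intervalIntegral.integral_finsetSum (fun k _ => (hUk k).intervalIntegrable _ _), Finset.mul_sum]
      exact Finset.sum_congr rfl fun k _ => int_prod _ _
    have hUb : ∀ t : ℝ, ‖U t‖ ^ 2 ≤ P2 ζ t * P2 ζ (-t) := by
      intro t
      have h1 := area2 S hev n ζ hζ hζ0 A hAd (fun j z hz => hfe _ (hζ j) z hz) c hcs (fun j => eM (j : ℤ) t) N
      rw [((P2_hasSum hζ t).mul_left 2).tsum_eq] at h1
      have h2 : ∑ k ∈ Finset.range N, ek k * (‖∑ l : Fin n, eM (-(l : ℤ)) t * ζ l ^ k‖ ^ 2 / k) ≤ P2 ζ (-t) := by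
        have h3 := P2_hasSum hζ (-t)
        simp only [eM_neg] at h3
        exact sum_le_hasSum _ (fun k _ => mul_nonneg (ek_nonneg k) (by positivity)) h3
      have hfac : ∀ k : ℕ, ‖∑ j : Fin n, eM (j : ℤ) t * (((ek k : ℝ) : ℂ) * c j k)‖ = ek k * ‖∑ j : Fin n, eM (j : ℤ) t * c j k‖ := by
        intro k
        have e : ∑ j : Fin n, eM (j : ℤ) t * (((ek k : ℝ) : ℂ) * c j k) = ((ek k : ℝ) : ℂ) * ∑ j : Fin n, eM (j : ℤ) t * c j k := by
          rw [Finset.mul_sum]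
          exact Finset.sum_congr rfl fun j _ => by ring
        rw [e, norm_mul, Complex.norm_real, Real.norm_of_nonneg (ek_nonneg k)]
      have h3 : ‖U t‖ ≤ ∑ k ∈ Finset.range N, (Real.sqrt k * (ek k * ‖∑ j : Fin n, eM (j : ℤ) t * c j k‖)) * ((ek k / 2) * ‖∑ l : Fin n, eM (-(l : ℤ)) t * ζ l ^ k‖ / Real.sqrt k) := by
        refine (norm_sum_le _ _).trans (Finset.sum_le_sum fun k _ => ?_)
        rw [norm_mul, hfac]
        rcases Nat.eq_zero_or_pos k with h | h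
        · rw [h]
          simp [ek]
        · have hk : Real.sqrt k ≠ 0 := by
            have : (0 : ℝ) < k := by exact_mod_cast h
            positivity
          apply le_of_eq
          have hek := ek_sq k
          field_simp
          linear_combination (-(‖∑ j : Fin n, eM (j : ℤ) t * c j k‖ * ‖∑ l : Fin n, eM (-(l : ℤ)) t * ζ l ^ k‖)) * hek
      have h4 := Finset.sum_mul_sq_le_sq_mul_sq (Finset.range N) (fun k : ℕ => Real.sqrt k * (ek k * ‖∑ j : Fin n, eM (j : ℤ) t * c j k‖))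
        (fun k : ℕ => (ek k / 2) * ‖∑ l : Fin n, eM (-(l : ℤ)) t * ζ l ^ k‖ / Real.sqrt k)
      have h5 : ∑ k ∈ Finset.range N, (Real.sqrt (k : ℝ) * (ek k * ‖∑ j : Fin n, eM (j : ℤ) t * c j k‖)) ^ 2 ≤ 2 * P2 ζ t := by
        refine le_trans (le_of_eq (Finset.sum_congr rfl fun k _ => ?_)) h1
        rw [mul_pow, Real.sq_sqrt (Nat.cast_nonneg k), mul_pow]
      have h6 : ∑ k ∈ Finset.range N, ((ek k / 2) * ‖∑ l : Fin n, eM (-(l : ℤ)) t * ζ l ^ k‖ / Real.sqrt (k : ℝ)) ^ 2 ≤ P2 ζ (-t) / 2 := by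
        have h7 : ∑ k ∈ Finset.range N, ((ek k / 2) * ‖∑ l : Fin n, eM (-(l : ℤ)) t * ζ l ^ k‖ / Real.sqrt (k : ℝ)) ^ 2 =
            (∑ k ∈ Finset.range N, ek k * (‖∑ l : Fin n, eM (-(l : ℤ)) t * ζ l ^ k‖ ^ 2 / k)) / 2 := by
          rw [Finset.sum_div]
          refine Finset.sum_congr rfl fun k _ => ?_
          rw [div_pow, Real.sq_sqrt (Nat.cast_nonneg k), mul_pow, div_pow, ek_sq]
          ring
        rw [h7]
        linarith
      calc ‖U t‖ ^ 2 ≤ (∑ k ∈ Finset.range N, (Real.sqrt k * (ek k * ‖∑ j : Fin n, eM (j : ℤ) t * c j k‖)) * ((ek k / 2) * ‖∑ l : Fin n, eM (-(l : ℤ)) t * ζ l ^ k‖ / Real.sqrt k)) ^ 2 := by gcongr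
        _ ≤ (2 * P2 ζ t) * (P2 ζ (-t) / 2) := h4.trans (mul_le_mul h5 h6 (Finset.sum_nonneg fun k _ => sq_nonneg _) (by have := P2_nonneg hζ t; positivity))
        _ = _ := by ring
    -- integrate
    set Rt : ℝ → ℝ := fun t => ((lam + 1 / lam) * (P2 ζ t + P2 ζ (-t)) + ((Real.pi - t) / Real.pi) * (lam - 1 / lam) * (P2 ζ t - P2 ζ (-t))) / 4 with hRt
    have hPc := P2_cont ζ
    have hPc' : Continuous fun t : ℝ => P2 ζ (-t) := hPc.comp continuous_neg
    have hRc : Continuous Rt := by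
      simp only [hRt]
      fun_prop
    have hpt : ∀ t ∈ Icc (0:ℝ) (2 * Real.pi), ‖U t‖ ≤ Rt t := by
      intro t ht
      apply amgm (P2_nonneg hζ t) (P2_nonneg hζ (-t)) (hUb t) hlam
      rw [abs_le]
      constructor
      · rw [le_div_iff₀ hpi]; linarith [ht.2]
      · rw [div_le_iff₀ hpi]; linarith [ht.1]
    have hI1 : ‖∫ t in (0:ℝ)..(2 * Real.pi), U t‖ ≤ ∫ t in (0:ℝ)..(2 * Real.pi), Rt t := by
      refine (intervalIntegral.norm_integral_le_integral_norm h2pi.le).trans ?_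
      exact intervalIntegral.integral_mono_on h2pi.le (hUc.norm.intervalIntegrable _ _) (hRc.intervalIntegrable _ _) hpt
    have hrefl : ∀ F : ℝ → ℝ, ∫ t in (0:ℝ)..(2 * Real.pi), F (2 * Real.pi - t) = ∫ t in (0:ℝ)..(2 * Real.pi), F t := by
      intro F
      rw [intervalIntegral.integral_comp_sub_left]
      simp
    have hper : ∀ t : ℝ, P2 ζ (2 * Real.pi - t) = P2 ζ (-t) := by
      intro t
      unfold P2
      refine Finset.sum_congr rfl fun i _ => Finset.sum_congr rfl fun l _ => ?_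
      have : eM ((i : ℤ) - (l : ℤ)) (2 * Real.pi - t) = eM ((i : ℤ) - (l : ℤ)) (-t) := by
        have h1 : eM ((i : ℤ) - (l : ℤ)) (2 * Real.pi - t) = eM ((i : ℤ) - (l : ℤ)) (2 * Real.pi) * eM ((i : ℤ) - (l : ℤ)) (-t) := by
          unfold eM
          rw [← Complex.exp_add]
          congr 1
          push_cast
          ring
        rw [h1, eM_2pi, one_mul]
      rw [this]
    have hm1 : ∫ t in (0:ℝ)..(2 * Real.pi), P2 ζ (-t) = 2 * Real.pi * τ := by
      rw [← P2_mean hζ, ← hrefl (P2 ζ)]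
      simp only [hper]
    have hm2 : ∫ t in (0:ℝ)..(2 * Real.pi), (Real.pi - t) * P2 ζ (-t) = 2 * Real.pi ^ 2 * yy2 := by
      have h1 : ∀ t : ℝ, (Real.pi - t) * P2 ζ (-t) = -((Real.pi - (2 * Real.pi - t)) * P2 ζ (2 * Real.pi - t)) := by
        intro t
        rw [hper]
        ring
      simp only [h1]
      rw [intervalIntegral.integral_neg, hrefl (fun t => (Real.pi - t) * P2 ζ t), P2_odd hζ]
      ring
    have hI2 : ∫ t in (0:ℝ)..(2 * Real.pi), Rt t = 2 * Real.pi * ((lam * (τ - yy2) + (τ + yy2) / lam) / 2) := by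
      have e1 : ∀ t, Rt t = (lam + 1 / lam) / 4 * P2 ζ t + (lam + 1 / lam) / 4 * P2 ζ (-t) +
          ((lam - 1 / lam) / (4 * Real.pi) * ((Real.pi - t) * P2 ζ t) - (lam - 1 / lam) / (4 * Real.pi) * ((Real.pi - t) * P2 ζ (-t))) := by
        intro t
        simp only [hRt]
        field_simp
      simp only [e1]
      have c1 : Continuous fun t : ℝ => (lam + 1 / lam) / 4 * P2 ζ t := by fun_prop
      have c2 : Continuous fun t : ℝ => (lam + 1 / lam) / 4 * P2 ζ (-t) := by fun_prop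
      have c3 : Continuous fun t : ℝ => (lam - 1 / lam) / (4 * Real.pi) * ((Real.pi - t) * P2 ζ t) := by fun_prop
      have c4 : Continuous fun t : ℝ => (lam - 1 / lam) / (4 * Real.pi) * ((Real.pi - t) * P2 ζ (-t)) := by fun_prop
      have s1 := intervalIntegral.integral_add (μ := volume) (a := 0) (b := 2 * Real.pi)
        (f := fun t : ℝ => (lam + 1 / lam) / 4 * P2 ζ t + (lam + 1 / lam) / 4 * P2 ζ (-t))
        (g := fun t : ℝ => (lam - 1 / lam) / (4 * Real.pi) * ((Real.pi - t) * P2 ζ t) - (lam - 1 / lam) / (4 * Real.pi) * ((Real.pi - t) * P2 ζ (-t)))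
        ((c1.add c2).intervalIntegrable _ _) ((c3.sub c4).intervalIntegrable _ _)
      rw [s1, intervalIntegral.integral_add (c1.intervalIntegrable _ _) (c2.intervalIntegrable _ _),
        intervalIntegral.integral_sub (c3.intervalIntegrable _ _) (c4.intervalIntegrable _ _)]
      simp only [intervalIntegral.integral_const_mul]
      rw [P2_mean hζ, hm1, P2_odd hζ, hm2, ← hτ, ← hyy2]
      field_simp
      ring
    rw [hUi, hI2, norm_mul, Complex.norm_real, Real.norm_of_nonneg h2pi.le] at hI1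
    exact le_of_mul_le_mul_left hI1 h2pi
  have hlim : Tendsto (fun N : ℕ => ∑ k ∈ Finset.range N, ∑ j, (((ek k : ℝ) : ℂ) * c j k) * ζ j ^ k) atTop
      (𝓝 (∑ j, (f (ζ j, ζ j) - f (ζ j, -ζ j)))) := by
    have h1 : HasSum (fun k : ℕ => ∑ j, (((ek k : ℝ) : ℂ) * c j k) * ζ j ^ k) (∑ j, (f (ζ j, ζ j) - f (ζ j, -ζ j))) := by
      refine hasSum_sum fun j _ => ?_
      have h2 := (hcs j _ (hζ j)).sub (hcs j _ (neg_ball (hζ j)))
      refine h2.congr_fun ?_ |> fun h => h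
      intro k
      rw [neg_pow (ζ j) k, ek_cast]
      ring
    exact h1.tendsto_sum_nat
  exact le_of_tendsto hlim.norm (Eventually.of_forall hpart)

theorem sq_ball {z : ℂ} (hz : z ∈ ball (0:ℂ) 1) : z ^ 2 ∈ ball (0:ℂ) 1 := by
  rw [mem_ball_zero_iff] at hz ⊢
  rw [norm_pow]
  nlinarith [norm_nonneg z]

/-- the odd square root transform of `u g / (u - g)`, in disc coordinates -/
theorem odd_transform (g : ℂ → ℂ) (hg : V5helper73.SZ.InS g) (u : ℂ) (hu : ∀ v ∈ ball (0:ℂ) 1, g v ≠ u) :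
    ∃ Y H : ℂ → ℂ, Sg Y H ∧ (∀ z, Y (-z) = Y z) ∧ (∀ s ∈ ball (0:ℂ) 1, Y s ≠ 0) ∧
      ∀ s ∈ ball (0:ℂ) 1, (Y s - s * deriv Y s) * (g (s ^ 2) * (u - g (s ^ 2))) = Y s * (s ^ 2 * deriv g (s ^ 2) * u) := by
  have h00 : (0:ℂ) ∈ ball (0:ℂ) 1 := mem_ball_self one_pos
  have hu0 : u ≠ 0 := fun h => hu 0 h00 (by rw [hg.zero, h])
  obtain ⟨γ, hγ⟩ : ∃ γ, γ = dslope g 0 := ⟨_, rfl⟩
  have hγd : DifferentiableOn ℂ γ (ball 0 1) := by
    rw [hγ]
    exact (Complex.differentiableOn_dslope (isOpen_ball.mem_nhds h00)).2 hg.diff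
  have hfg : ∀ v, g v = v * γ v := by
    intro v
    have h := sub_smul_dslope g 0 v
    rw [hg.zero, sub_zero, sub_zero, smul_eq_mul] at h
    rw [hγ, h]
  have hγ0 : γ 0 = 1 := by rw [hγ, dslope_same, hg.one]
  have hγne : ∀ v ∈ ball (0:ℂ) 1, γ v ≠ 0 := by
    intro v hv h
    have h2 : g v = g 0 := by rw [hfg v, h, mul_zero, hg.zero]
    have h3 := hg.inj hv h00 h2
    rw [h3, hγ0] at h
    exact one_ne_zero h
  have hdf : ∀ v ∈ ball (0:ℂ) 1, deriv g v = γ v + v * deriv γ v := by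
    intro v hv
    have hgv : HasDerivAt γ (deriv γ v) v := (hγd.differentiableAt (isOpen_ball.mem_nhds hv)).hasDerivAt
    have h2 : HasDerivAt (fun z => z * γ z) (1 * γ v + v * deriv γ v) v := (hasDerivAt_id v).mul hgv
    have h3 : g = fun z => z * γ z := funext hfg
    rw [h3, h2.deriv, one_mul]
  -- the function `Ψ = (u - g)/(u γ)`
  set Ψ : ℂ → ℂ := fun v => (u - g v) / (u * γ v) with hΨ
  have hΨd : DifferentiableOn ℂ Ψ (ball 0 1) :=
    ((differentiableOn_const u).sub hg.diff).div (hγd.const_mul u) (fun z hz => mul_ne_zero hu0 (hγne z hz))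
  have hΨne : ∀ v ∈ ball (0:ℂ) 1, Ψ v ≠ 0 := fun v hv =>
    div_ne_zero (sub_ne_zero.2 (fun h => hu v hv h.symm)) (mul_ne_zero hu0 (hγne v hv))
  have hΨ0 : Ψ 0 = 1 := by
    simp only [hΨ]
    rw [hg.zero, hγ0, sub_zero, mul_one, div_self hu0]
  have hΨder : ∀ v ∈ ball (0:ℂ) 1, Ψ v - v * deriv Ψ v = deriv g v / γ v ^ 2 := by
    intro v hv
    have hgv : HasDerivAt γ (deriv γ v) v := (hγd.differentiableAt (isOpen_ball.mem_nhds hv)).hasDerivAt
    have hgg : HasDerivAt g (deriv g v) v := (hg.diff.differentiableAt (isOpen_ball.mem_nhds hv)).hasDerivAt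
    have h1 : HasDerivAt Ψ (((-deriv g v) * (u * γ v) - (u - g v) * (u * deriv γ v)) / (u * γ v) ^ 2) v :=
      (hgg.const_sub u).div (hgv.const_mul u) (mul_ne_zero hu0 (hγne v hv))
    rw [h1.deriv]
    simp only [hΨ]
    have h2 := hγne v hv
    rw [hdf v hv, hfg v]
    field_simp
    ring
  obtain ⟨ℓ, hℓ, hℓe⟩ := H113G.J_schottky.exists_log hΨd hΨne
  have hℓ0 : Complex.exp (ℓ 0) = 1 := by rw [hℓe 0 h00, hΨ0]
  set Y : ℂ → ℂ := fun z => Complex.exp ((ℓ (z ^ 2) - ℓ 0) / 2) with hY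
  have hYsq : ∀ z ∈ ball (0:ℂ) 1, Y z ^ 2 = Ψ (z ^ 2) := by
    intro z hz
    simp only [hY]
    rw [← Complex.exp_nat_mul]
    have e : ((2:ℕ):ℂ) * ((ℓ (z ^ 2) - ℓ 0) / 2) = ℓ (z ^ 2) - ℓ 0 := by push_cast; ring
    rw [e, Complex.exp_sub, hℓ0, div_one, hℓe _ (sq_ball hz)]
  have hYne : ∀ z, Y z ≠ 0 := fun z => Complex.exp_ne_zero _
  have hYd : DifferentiableOn ℂ Y (ball 0 1) := by
    apply DifferentiableOn.cexp
    apply DifferentiableOn.div_const
    apply DifferentiableOn.sub_const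
    exact hℓ.comp (differentiable_pow 2).differentiableOn (fun z hz => sq_ball hz)
  have hYev : ∀ z, Y (-z) = Y z := by
    intro z
    simp only [hY, neg_sq]
  have hY0 : Y 0 = 1 := by
    simp only [hY]
    rw [zero_pow two_ne_zero, sub_self, zero_div, Complex.exp_zero]
  have hYder : ∀ z ∈ ball (0:ℂ) 1, Y z * (Y z - z * deriv Y z) = deriv g (z ^ 2) / γ (z ^ 2) ^ 2 := by
    intro z hz
    have hYz : HasDerivAt Y (deriv Y z) z := (hYd.differentiableAt (isOpen_ball.mem_nhds hz)).hasDerivAt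
    have hz2 := sq_ball hz
    have hΨz : HasDerivAt Ψ (deriv Ψ (z ^ 2)) (z ^ 2) := (hΨd.differentiableAt (isOpen_ball.mem_nhds hz2)).hasDerivAt
    have h1 : HasDerivAt (fun w => Y w ^ 2) (2 * Y z * deriv Y z) z := by
      have h0 := hYz.mul hYz
      have e0 : (fun w => Y w ^ 2) = fun w => Y w * Y w := funext fun w => sq (Y w)
      rw [e0]
      exact h0.congr_deriv (by ring)
    have h2 : HasDerivAt (fun w => Ψ (w ^ 2)) (deriv Ψ (z ^ 2) * (2 * z)) z := by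
      have h3 : HasDerivAt (fun w : ℂ => w ^ 2) (2 * z) z := by simpa using hasDerivAt_pow 2 z
      exact HasDerivAt.comp z (h₂ := Ψ) hΨz h3
    have h3 : (fun w => Y w ^ 2) =ᶠ[𝓝 z] fun w => Ψ (w ^ 2) := by
      filter_upwards [isOpen_ball.mem_nhds hz] with w hw
      exact hYsq w hw
    have h4 : 2 * Y z * deriv Y z = deriv Ψ (z ^ 2) * (2 * z) := by
      rw [← h1.deriv, ← h2.deriv, h3.deriv_eq]
    have h5 := hΨder (z ^ 2) hz2
    rw [← h5, ← hYsq z hz]
    linear_combination (-(z / 2)) * h4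
  -- the logarithm
  have hFd : DifferentiableOn ℂ (fun z => Y z - z * deriv Y z) (ball 0 1) :=
    hYd.sub (differentiableOn_id.mul (hYd.deriv isOpen_ball))
  have hFne : ∀ z ∈ ball (0:ℂ) 1, Y z - z * deriv Y z ≠ 0 := by
    intro z hz h
    have h1 := hYder z hz
    rw [h, mul_zero] at h1
    exact div_ne_zero (Pool.Agent.H712R2.M.deriv_ne_zero_of_injOn' isOpen_ball hg.diff hg.inj (sq_ball hz))
      (pow_ne_zero 2 (hγne _ (sq_ball hz))) h1.symm
  obtain ⟨H, hH, hHe⟩ := H113G.J_schottky.exists_log hFd hFne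
  have hH0 : Complex.exp (H 0) = 1 := by
    rw [hHe 0 h00, hY0, zero_mul, sub_zero]
  refine ⟨Y, fun z => H z - H 0, ⟨⟨hYd, hY0, ?_⟩, hH.sub_const _, sub_self _, ?_⟩, hYev, fun s _ => hYne s, ?_⟩
  · rintro z ⟨hz, hz0⟩ w ⟨hw, hw0⟩ h
    have hz0 : z ≠ 0 := hz0
    have hw0 : w ≠ 0 := hw0
    have h : Y z / z = Y w / w := h
    have h1 : Ψ (z ^ 2) / z ^ 2 = Ψ (w ^ 2) / w ^ 2 := by
      rw [← hYsq z hz, ← hYsq w hw, ← div_pow, ← div_pow, h]
    have hrec : ∀ x ∈ ball (0:ℂ) 1, x ≠ 0 → Ψ (x ^ 2) / x ^ 2 = (g (x ^ 2))⁻¹ - u⁻¹ := by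
      intro x hx hx0
      simp only [hΨ]
      rw [hfg (x ^ 2)]
      have h2 := hγne _ (sq_ball hx)
      field_simp
    rw [hrec z hz hz0, hrec w hw hw0] at h1
    have h2 : g (z ^ 2) = g (w ^ 2) := by
      apply inv_injective
      linear_combination h1
    have h3 := hg.inj (sq_ball hz) (sq_ball hw) h2
    rcases sq_eq_sq_iff_eq_or_eq_neg.1 h3 with h4 | h4
    · exact h4
    · exfalso
      rw [h4, hYev, div_neg] at h
      have h5 : Y w / w ≠ 0 := div_ne_zero (hYne w) hw0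
      apply h5
      linear_combination (-(1/2) : ℂ) * h
  · intro w hw
    show Complex.exp (H w - H 0) = _
    rw [Complex.exp_sub, hH0, div_one, hHe w hw]
  · intro s hs
    have hs2 := sq_ball hs
    have h1 := hYder s hs
    have h2 := hYsq s hs
    have h3 := hγne _ hs2
    have h4 := hYne s
    apply mul_left_cancel₀ h4
    have e1 : Y s * ((Y s - s * deriv Y s) * (g (s ^ 2) * (u - g (s ^ 2)))) =
        deriv g (s ^ 2) / γ (s ^ 2) ^ 2 * (g (s ^ 2) * (u - g (s ^ 2))) := by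
      rw [← h1]; ring
    have e2 : Y s * (Y s * (s ^ 2 * deriv g (s ^ 2) * u)) = Ψ (s ^ 2) * (s ^ 2 * deriv g (s ^ 2) * u) := by
      rw [← h2]; ring
    rw [e1, e2]
    simp only [hΨ]
    rw [hfg (s ^ 2)]
    field_simp

theorem t_CHAR2 : V5helper73.SZ.S_CHAR2 := by
  intro g hg u hu
  obtain ⟨Y, H, S, hev, hne, hY⟩ := odd_transform g hg u hu
  obtain ⟨A, hA, hb⟩ := char2core S hev
  refine ⟨A, ?_, hb⟩
  intro s hs hs0
  have h1 := hA s hs hs0
  have h2 := hY s hs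
  rw [← h1] at h2
  apply mul_left_cancel₀ (hne s hs)
  linear_combination h2

end V5helper24.SZ
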